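import Pool.Agent.H207.BT.Stm
import Pool.Agent.H190.HY211.SOLVE

/-!
# BT PULL: pulling back moving points along the orbit of a critical value (helper62 for helper207)
-/

set_option autoImplicit false

open Topology Filter Metric Set

namespace Pool.Agent.H62.BT207

open Pool.Agent.H211.HY Pool.Agent.H207.BT
open Pool.Agent.H190.HY211 (lip_of_bound)

section ext

variable {k : ℕ}

/-- the first parameters -/
def Pr (σ : Fin (k + 1) → ℂ) : Fin k → ℂ := fun j => σ j.castSucc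

/-- the projection as a continuous linear map -/
noncomputable def PrL (k : ℕ) : (Fin (k + 1) → ℂ) →L[ℂ] (Fin k → ℂ) :=
  ContinuousLinearMap.pi fun j => ContinuousLinearMap.proj j.castSucc

lemma PrL_apply (σ : Fin (k + 1) → ℂ) : PrL k σ = Pr σ := rfl

lemma norm_Pr_le (σ : Fin (k + 1) → ℂ) : ‖Pr σ‖ ≤ ‖σ‖ :=
  (pi_norm_le_iff_of_nonneg (norm_nonneg _)).2 fun j => norm_le_pi_norm σ j.castSucc

/-- joining of parameters -/
def Jn (s : Fin k → ℂ) (t : ℂ) : Fin (k + 1) → ℂ := Fin.snoc (α := fun _ => ℂ) s t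

lemma Jn_cast (s : Fin k → ℂ) (t : ℂ) (j : Fin k) : Jn s t j.castSucc = s j :=
  Fin.snoc_castSucc (α := fun _ => ℂ) t s j

lemma Jn_last (s : Fin k → ℂ) (t : ℂ) : Jn s t (Fin.last k) = t :=
  Fin.snoc_last (α := fun _ => ℂ) t s

lemma Pr_Jn (s : Fin k → ℂ) (t : ℂ) : Pr (Jn s t) = s := by
  funext j
  exact Jn_cast s t j

lemma norm_Jn_le {s : Fin k → ℂ} {t : ℂ} {R : ℝ} (hR : 0 ≤ R) (hs : ‖s‖ ≤ R) (ht : ‖t‖ ≤ R) :
    ‖Jn s t‖ ≤ R := by
  refine (pi_norm_le_iff_of_nonneg hR).2 fun j => ?_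
  refine Fin.lastCases ?_ (fun j => ?_) j
  · rw [Jn_last]
    exact ht
  · rw [Jn_cast]
    exact (norm_le_pi_norm s j).trans hs

lemma Jn_sub (s s' : Fin k → ℂ) (t t' : ℂ) : Jn s t - Jn s' t' = Jn (s - s') (t - t') := by
  funext j
  refine Fin.lastCases ?_ (fun j => ?_) j
  · rw [Pi.sub_apply, Jn_last, Jn_last, Jn_last]
  · rw [Pi.sub_apply, Jn_cast, Jn_cast, Jn_cast, Pi.sub_apply]

/-- the extended family -/
def fh (f : ℕ → (Fin k → ℂ) → ℂ → ℂ) : ℕ → (Fin (k + 1) → ℂ) → ℂ → ℂ := fun n σ w => f n (Pr σ) w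

/-- the extended critical value -/
def vh (v : (Fin k → ℂ) → ℂ) (κ : ℂ) (i : Fin k) : (Fin (k + 1) → ℂ) → ℂ :=
  fun σ => v (Pr σ) + σ (Fin.last k) - κ * Pr σ i

lemma DD_fh (f : ℕ → (Fin k → ℂ) → ℂ → ℂ) (z : ℕ → ℂ) (n : ℕ) : DD (fh f) z n = DD f z n := rfl

lemma YY_eq {f : ℕ → (Fin k → ℂ) → ℂ → ℂ} {v w : (Fin k → ℂ) → ℂ} {κ : ℂ} {i : Fin k}
    {s : Fin k → ℂ} {t : ℂ} (hw : w s = v s + t - κ * s i) (n : ℕ) :
    YY f w n s = YY (fh f) (vh v κ i) n (Jn s t) := by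
  induction n with
  | zero =>
    show w s = v (Pr (Jn s t)) + Jn s t (Fin.last k) - κ * Pr (Jn s t) i
    rw [Pr_Jn, Jn_last]
    exact hw
  | succ n ih =>
    show f n s (YY f w n s) = f n (Pr (Jn s t)) (YY (fh f) (vh v κ i) n (Jn s t))
    rw [Pr_Jn, ih]

lemma Pr_mem {ρ : ℝ} {σ : Fin (k + 1) → ℂ} (h : σ ∈ ball (0 : Fin (k + 1) → ℂ) ρ) :
    Pr σ ∈ ball (0 : Fin k → ℂ) ρ := by
  rw [mem_ball_zero_iff] at h ⊢
  exact (norm_Pr_le σ).trans_lt h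

lemma good_ext {i : Fin k} {f : ℕ → (Fin k → ℂ) → ℂ → ℂ} {v : (Fin k → ℂ) → ℂ} {z : ℕ → ℂ}
    {x : ℕ → ℝ} {ρ C c μ : ℝ} {κ : ℂ} (hG : Good i f v z x ρ C c μ κ) :
    Good (Fin.last k) (fh f) (vh v κ i) z x ρ (C + ρ + ‖κ‖ * ρ) c μ 1 := by
  have hρ := hG.ρ0
  have hC := hG.C1
  have hκ : 0 ≤ ‖κ‖ * ρ := by positivity
  have hCC : C ≤ C + ρ + ‖κ‖ * ρ := by linarith
  have hC0 : 0 < C := by linarith
  have hv0 : DifferentiableAt ℂ v 0 := hG.vd.differentiableAt (isOpen_ball.mem_nhds (mem_ball_self hρ))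
  have hfz : ∀ j, DifferentiableAt ℂ (fun s : Fin k → ℂ => f j s (z j)) 0 := by
    intro j
    have h1 : DifferentiableAt ℂ (fun p : (Fin k → ℂ) × ℂ => f j p.1 p.2) (0, z j) :=
      (hG.fd j).differentiableAt ((isOpen_ball.prod isOpen_ball).mem_nhds
        ⟨mem_ball_self hρ, mem_ball_self hρ⟩)
    have h2 : DifferentiableAt ℂ (fun s : Fin k → ℂ => (s, z j)) 0 :=
      differentiableAt_id.prodMk (differentiableAt_const _)
    exact DifferentiableAt.comp (0 : Fin k → ℂ)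
      (g := fun p : (Fin k → ℂ) × ℂ => f j p.1 p.2) (f := fun s : Fin k → ℂ => (s, z j)) h1 h2
  refine ⟨hρ, by linarith, hG.c0, hG.μ1, one_ne_zero, ?_, ?_, ?_, hG.fz, ?_, ?_, hG.xx, ?_, ?_, hG.gr, ?_⟩
  · show v (Pr 0) + (0 : Fin (k + 1) → ℂ) (Fin.last k) - κ * Pr (0 : Fin (k + 1) → ℂ) i = z 0
    have h1 : Pr (0 : Fin (k + 1) → ℂ) = 0 := rfl
    rw [h1, hG.v0]
    simp
  · have h1 : DifferentiableOn ℂ (fun σ : Fin (k + 1) → ℂ => v (Pr σ)) (ball 0 ρ) :=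
      hG.vd.comp (PrL k).differentiable.differentiableOn fun σ hσ => Pr_mem hσ
    have h2 : DifferentiableOn ℂ (fun σ : Fin (k + 1) → ℂ => σ (Fin.last k)) (ball 0 ρ) :=
      (differentiable_apply _).differentiableOn
    have h3 : DifferentiableOn ℂ (fun σ : Fin (k + 1) → ℂ => κ * σ i.castSucc) (ball 0 ρ) :=
      (differentiableOn_const _).mul (differentiable_apply _).differentiableOn
    exact (h1.add h2).sub h3
  · intro σ hσ
    have h1 := hG.vb (Pr σ) (Pr_mem hσ)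
    have hσ' : ‖σ‖ < ρ := mem_ball_zero_iff.1 hσ
    have h2 : ‖σ (Fin.last k)‖ ≤ ρ := (norm_le_pi_norm σ _).trans hσ'.le
    have h3 : ‖κ * Pr σ i‖ ≤ ‖κ‖ * ρ := by
      rw [norm_mul]
      exact mul_le_mul_of_nonneg_left ((norm_le_pi_norm σ _).trans hσ'.le) (norm_nonneg _)
    have h4 := norm_sub_le (v (Pr σ) + σ (Fin.last k)) (κ * Pr σ i)
    have h5 := norm_add_le (v (Pr σ)) (σ (Fin.last k))
    show ‖v (Pr σ) + σ (Fin.last k) - κ * Pr σ i‖ ≤ _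
    linarith
  · intro n
    have h1 : DifferentiableOn ℂ (fun p : (Fin (k + 1) → ℂ) × ℂ => (Pr p.1, p.2))
        (ball 0 ρ ×ˢ ball (z n) ρ) :=
      (((PrL k).differentiable.comp differentiable_fst).prodMk differentiable_snd).differentiableOn
    exact (hG.fd n).comp h1 fun p hp => ⟨Pr_mem hp.1, hp.2⟩
  · intro n σ hσ w hw
    exact (hG.fb n (Pr σ) (Pr_mem hσ) w hw).trans hCC
  · intro n
    refine ⟨(hG.dx n).1, (hG.dx n).2.trans ?_⟩
    exact mul_le_mul_of_nonneg_right hCC (hG.xx n).1.le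
  · intro n σ hσ w hw h
    have hx := (hG.xx n).1
    have h1 : ‖Pr σ‖ + ‖w - z n‖ ≤ ‖σ‖ + ‖w - z n‖ := by
      have := norm_Pr_le σ
      linarith
    have h2 : x n / (C + ρ + ‖κ‖ * ρ) ≤ x n / C := div_le_div_of_nonneg_left hx.le hC0 hCC
    refine (hG.ds n (Pr σ) (Pr_mem hσ) w hw (h1.trans (h.trans h2))).trans ?_
    refine mul_le_mul (mul_le_mul_of_nonneg_right hCC (norm_nonneg _))
      (div_le_div_of_nonneg_right h1 hx.le) (by positivity) (by positivity)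
  · intro b
    have h1 : fderiv ℂ (vh v κ i) 0 b = fderiv ℂ v 0 (Pr b) + b (Fin.last k) - κ * Pr b i := by
      have e1 : HasFDerivAt (fun σ : Fin (k + 1) → ℂ => v (Pr σ)) ((fderiv ℂ v 0).comp (PrL k)) 0 :=
        HasFDerivAt.comp (0 : Fin (k + 1) → ℂ) (g := v) (f := fun σ => PrL k σ)
          (by rw [map_zero]; exact hv0.hasFDerivAt) (PrL k).hasFDerivAt
      have e2 : HasFDerivAt (fun σ : Fin (k + 1) → ℂ => σ (Fin.last k))
          (ContinuousLinearMap.proj (Fin.last k) : (Fin (k + 1) → ℂ) →L[ℂ] ℂ) 0 :=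
        (ContinuousLinearMap.proj (Fin.last k) : (Fin (k + 1) → ℂ) →L[ℂ] ℂ).hasFDerivAt
      have e3 : HasFDerivAt (fun σ : Fin (k + 1) → ℂ => κ * σ i.castSucc)
          (κ • (ContinuousLinearMap.proj i.castSucc : (Fin (k + 1) → ℂ) →L[ℂ] ℂ)) 0 :=
        ((ContinuousLinearMap.proj i.castSucc : (Fin (k + 1) → ℂ) →L[ℂ] ℂ).hasFDerivAt).const_mul κ
      have e4 : HasFDerivAt (vh v κ i) ((fderiv ℂ v 0).comp (PrL k) +
          (ContinuousLinearMap.proj (Fin.last k) : (Fin (k + 1) → ℂ) →L[ℂ] ℂ) -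
          κ • (ContinuousLinearMap.proj i.castSucc : (Fin (k + 1) → ℂ) →L[ℂ] ℂ)) 0 := (e1.add e2).sub e3
      rw [e4.fderiv]
      rfl
    have h2 : ∀ j, fderiv ℂ (fun σ : Fin (k + 1) → ℂ => fh f j σ (z j)) 0 b =
        fderiv ℂ (fun s : Fin k → ℂ => f j s (z j)) 0 (Pr b) := by
      intro j
      have e1 : HasFDerivAt (fun σ : Fin (k + 1) → ℂ => fh f j σ (z j))
          ((fderiv ℂ (fun s : Fin k → ℂ => f j s (z j)) 0).comp (PrL k)) 0 :=
        HasFDerivAt.comp (0 : Fin (k + 1) → ℂ) (g := fun s : Fin k → ℂ => f j s (z j))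
          (f := fun σ => PrL k σ)
          (by rw [map_zero]; exact (hfz j).hasFDerivAt) (PrL k).hasFDerivAt
      rw [e1.fderiv]
      rfl
    have h3 := (hG.fn (Pr b)).add_const (b (Fin.last k) - κ * Pr b i)
    have h4 : κ * Pr b i + (b (Fin.last k) - κ * Pr b i) = 1 * b (Fin.last k) := by ring
    rw [h4] at h3
    refine h3.congr fun n => ?_
    rw [h1]
    have h5 : ∑ j ∈ Finset.range n, fderiv ℂ (fun σ : Fin (k + 1) → ℂ => fh f j σ (z j)) 0 b /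
        DD (fh f) z (j + 1) = ∑ j ∈ Finset.range n,
          fderiv ℂ (fun s : Fin k → ℂ => f j s (z j)) 0 (Pr b) / DD f z (j + 1) :=
      Finset.sum_congr rfl fun j _ => by rw [h2, DD_fh]
    rw [h5]
    ring

end ext

/-- the contraction principle on discs -/
theorem fixed_point1 {R : ℝ} (hR : 0 ≤ R) (Φ : ℂ → ℂ)
    (hmap : ∀ t : ℂ, ‖t‖ ≤ R → ‖Φ t‖ ≤ R)
    (hlip : ∀ t t' : ℂ, ‖t‖ ≤ R → ‖t'‖ ≤ R → ‖Φ t' - Φ t‖ ≤ 1 / 2 * ‖t' - t‖) :
    ∃ t : ℂ, ‖t‖ ≤ R ∧ Φ t = t := by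
  have hmaps : MapsTo Φ (closedBall 0 R) (closedBall 0 R) := by
    intro s hs
    rw [mem_closedBall_zero_iff] at hs ⊢
    exact hmap s hs
  have hK : ContractingWith (1 / 2 : NNReal) (hmaps.restrict Φ _ _) := by
    refine ⟨by norm_num, LipschitzWith.of_dist_le_mul fun a b => ?_⟩
    rw [Subtype.dist_eq, Subtype.dist_eq, dist_eq_norm, dist_eq_norm]
    have ha : ‖(a : ℂ)‖ ≤ R := mem_closedBall_zero_iff.1 a.2
    have hb : ‖(b : ℂ)‖ ≤ R := mem_closedBall_zero_iff.1 b.2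
    have h1 := hlip b a hb ha
    have h2 : ((1 / 2 : NNReal) : ℝ) = 1 / 2 := by norm_num
    rw [h2]
    exact h1
  obtain ⟨y, hy, hfy, -⟩ := hK.exists_fixedPoint' (isClosed_closedBall.isComplete) hmaps
    (x := 0) (mem_closedBall_self hR) (edist_ne_top _ _)
  exact ⟨y, mem_closedBall_zero_iff.1 hy, hfy⟩

theorem t_PULL (h : Pool.Agent.H207.BT.S_FOL2) : Pool.Agent.H207.BT.S_PULL := by
  intro k i f v z x ρ C c μ κ hG
  have hρ := hG.ρ0
  have hC := hG.C1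
  have hC0 : 0 < C := by linarith
  obtain ⟨θ, hθ, r₁, hr₁, N₀, hF⟩ := h (k + 1) (Fin.last k) (fh f) (vh v κ i) z x ρ
    (C + ρ + ‖κ‖ * ρ) c μ 1 (good_ext hG) (1 / 64) (by norm_num) (1 / (2 * C)) (by positivity)
  obtain ⟨K₀, hK₀⟩ : ∃ K₀ : ℝ, K₀ = 16 + 4 * C / ρ + ‖κ‖ := ⟨_, rfl⟩
  have h4C : 0 ≤ 4 * C / ρ := by positivity
  have hK16 : 16 ≤ K₀ := by
    rw [hK₀]
    have := norm_nonneg κ
    linarith
  refine ⟨K₀, by linarith, θ, hθ, min r₁ (ρ / 2), lt_min hr₁ (by positivity), N₀, ?_⟩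
  intro δ N hδ hδr hN hsum u r Λ hr hΛ hKr hKΛ hu hu0
  have hδ1 : δ ≤ r₁ := hδr.trans (min_le_left _ _)
  have hδ2 : δ ≤ ρ / 2 := hδr.trans (min_le_right _ _)
  obtain ⟨hd, hb⟩ := hF δ N hδ hδ1 hN hsum
  rw [DD_fh] at hb
  have hDne : DD f z N ≠ 0 := by
    unfold DD
    exact Finset.prod_ne_zero_iff.2 fun j _ => (hG.dx j).1
  obtain ⟨D, hD⟩ : ∃ D : ℂ, D = DD f z N := ⟨_, rfl⟩
  rw [← hD] at hb hDne hKΛ hu0 ⊢
  have hDp : 0 < ‖D‖ := norm_pos_iff.2 hDne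
  obtain ⟨Y, hY⟩ : ∃ Y : (Fin (k + 1) → ℂ) → ℂ, Y = YY (fh f) (vh v κ i) N := ⟨_, rfl⟩
  rw [← hY] at hd hb
  obtain ⟨E, hE⟩ : ∃ E : (Fin (k + 1) → ℂ) → ℂ,
      ∀ σ, E σ = Y σ - z N - D * σ (Fin.last k) := ⟨_, fun _ => rfl⟩
  have hEf : E = fun σ => Y σ - z N - D * σ (Fin.last k) := funext hE
  have hEd : DifferentiableOn ℂ E (ball 0 δ) := by
    rw [hEf]
    refine (hd.sub (differentiableOn_const _)).sub ?_
    exact (differentiableOn_const _).mul (differentiable_apply _).differentiableOn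
  have hEb : ∀ σ ∈ ball (0 : Fin (k + 1) → ℂ) δ, ‖E σ‖ ≤ 1 / 64 * δ * ‖D‖ := by
    intro σ hσ
    have h1 := (hb σ hσ).2
    rw [one_mul] at h1
    rw [hE]
    exact h1
  have hEl : ∀ σ σ' : Fin (k + 1) → ℂ, ‖σ‖ ≤ δ / 2 → ‖σ'‖ ≤ δ / 2 →
      ‖E σ' - E σ‖ ≤ ‖D‖ / 16 * ‖σ' - σ‖ := by
    intro σ σ' hσ hσ'
    refine (lip_of_bound hδ (by positivity) hEd hEb σ σ' hσ hσ').trans (le_of_eq ?_)
    field_simp
    ring
  have hYz : ∀ n, YY (fh f) (vh v κ i) n 0 = z n := by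
    intro n
    induction n with
    | zero => exact (good_ext hG).v0
    | succ n ih =>
      show fh f n 0 (YY (fh f) (vh v κ i) n 0) = z (n + 1)
      rw [ih]
      exact hG.fz n
  have hE0 : E 0 = 0 := by
    rw [hE, hY, hYz]
    simp
  have hrδ : r ≤ δ / 16 := by
    have : 16 * r ≤ K₀ * r := mul_le_mul_of_nonneg_right hK16 hr.le
    linarith
  have hu0' : 16 * ‖u 0 - z N‖ ≤ δ * ‖D‖ :=
    (mul_le_mul_of_nonneg_right hK16 (norm_nonneg _)).trans hu0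
  have hΛr : 16 * (Λ * r) ≤ δ * ‖D‖ := by
    refine le_trans ?_ hKΛ
    rw [mul_assoc]
    exact mul_le_mul_of_nonneg_right hK16 (by positivity)
  have h0r : (0 : Fin k → ℂ) ∈ ball (0 : Fin k → ℂ) r := mem_ball_self hr
  have hJ : ∀ s : Fin k → ℂ, s ∈ ball (0 : Fin k → ℂ) r → ∀ t : ℂ, ‖t‖ ≤ δ / 4 →
      ‖Jn s t‖ ≤ δ / 2 := by
    intro s hs t ht
    rw [mem_ball_zero_iff] at hs
    exact norm_Jn_le (by positivity) (by linarith) (by linarith)
  have key : ∀ s : Fin k → ℂ, s ∈ ball (0 : Fin k → ℂ) r → ∃ t : ℂ, ‖t‖ ≤ δ / 4 ∧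
      D * t + E (Jn s t) = u s - z N := by
    intro s hs
    obtain ⟨t, ht, hfix⟩ := fixed_point1 (R := δ / 4) (by positivity)
      (fun t => (u s - z N - E (Jn s t)) / D) (by
        intro t ht
        show ‖(u s - z N - E (Jn s t)) / D‖ ≤ δ / 4
        rw [norm_div, div_le_iff₀ hDp]
        have h1 := hEb (Jn s t) (by
          rw [mem_ball_zero_iff]
          have := hJ s hs t ht
          linarith)
        have h2 := hu s hs 0 h0r
        rw [sub_zero] at h2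
        have h3 : ‖u s - z N - E (Jn s t)‖ ≤ ‖u s - u 0‖ + ‖u 0 - z N‖ + ‖E (Jn s t)‖ := by
          have h4 : u s - z N - E (Jn s t) = (u s - u 0) + (u 0 - z N) - E (Jn s t) := by ring
          rw [h4]
          exact (norm_sub_le _ _).trans (add_le_add (norm_add_le _ _) le_rfl)
        have h5 : Λ * ‖s‖ ≤ Λ * r := mul_le_mul_of_nonneg_left (mem_ball_zero_iff.1 hs).le hΛ
        have h6 : 0 < δ * ‖D‖ := by positivity
        linarith) (by
        intro t t' ht ht'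
        show ‖(u s - z N - E (Jn s t')) / D - (u s - z N - E (Jn s t)) / D‖ ≤ 1 / 2 * ‖t' - t‖
        rw [← sub_div, norm_div, div_le_iff₀ hDp]
        have h1 := hEl (Jn s t) (Jn s t') (hJ s hs t ht) (hJ s hs t' ht')
        have h2 : ‖Jn s t' - Jn s t‖ ≤ ‖t' - t‖ := by
          rw [Jn_sub]
          exact norm_Jn_le (norm_nonneg _) (by rw [sub_self, norm_zero]; exact norm_nonneg _) le_rfl
        have h3 : u s - z N - E (Jn s t') - (u s - z N - E (Jn s t)) =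
            -(E (Jn s t') - E (Jn s t)) := by ring
        rw [h3, norm_neg]
        have h4 : ‖D‖ / 16 * ‖Jn s t' - Jn s t‖ ≤ ‖D‖ / 16 * ‖t' - t‖ :=
          mul_le_mul_of_nonneg_left h2 (by positivity)
        have h5 : 0 ≤ ‖D‖ * ‖t' - t‖ := by positivity
        linarith)
    refine ⟨t, ht, ?_⟩
    have h1 : (u s - z N - E (Jn s t)) / D = t := hfix
    rw [div_eq_iff hDne] at h1
    linear_combination -h1
  choose! t ht heq using key
  have htL : ∀ s ∈ ball (0 : Fin k → ℂ) r, ∀ s' ∈ ball (0 : Fin k → ℂ) r,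
      ‖D‖ * ‖t s - t s'‖ ≤ (2 * Λ + ‖D‖) * ‖s - s'‖ := by
    intro s hs s' hs'
    have h3 : D * (t s - t s') = (u s - u s') - (E (Jn s (t s)) - E (Jn s' (t s'))) := by
      linear_combination heq s hs - heq s' hs'
    have h6 := hEl _ _ (hJ s' hs' _ (ht s' hs')) (hJ s hs _ (ht s hs))
    have h7 : ‖Jn s (t s) - Jn s' (t s')‖ ≤ ‖s - s'‖ + ‖t s - t s'‖ := by
      rw [Jn_sub]
      exact norm_Jn_le (by positivity) (by linarith [norm_nonneg (t s - t s')])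
        (by linarith [norm_nonneg (s - s')])
    have h8 := congrArg norm h3
    rw [norm_mul] at h8
    have h9 := norm_sub_le (u s - u s') (E (Jn s (t s)) - E (Jn s' (t s')))
    have h10 := hu s hs s' hs'
    have h11 : ‖D‖ / 16 * ‖Jn s (t s) - Jn s' (t s')‖ ≤
        ‖D‖ / 16 * (‖s - s'‖ + ‖t s - t s'‖) := mul_le_mul_of_nonneg_left h7 (by positivity)
    have h12 : 0 ≤ Λ * ‖s - s'‖ := by positivity
    have h13 : 0 ≤ ‖D‖ * ‖s - s'‖ := by positivity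
    linarith
  have hE1 : ‖E (Jn 0 (t 0))‖ ≤ ‖D‖ / 16 * ‖t 0‖ := by
    have h1 := hEl 0 (Jn 0 (t 0)) (by rw [norm_zero]; positivity) (hJ 0 h0r _ (ht 0 h0r))
    rw [hE0, sub_zero, sub_zero] at h1
    refine h1.trans (mul_le_mul_of_nonneg_left ?_ (by positivity))
    exact norm_Jn_le (norm_nonneg _) (by rw [norm_zero]; exact norm_nonneg _) le_rfl
  have hw0 : v 0 + t 0 - κ * (0 : Fin k → ℂ) i - z 0 = t 0 := by
    rw [hG.v0]
    simp
  have heq0 := heq 0 h0r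
  refine ⟨fun s => v s + t s - κ * s i, ?_, ?_, ?_, ?_⟩
  · intro s hs s' hs'
    have hsn : ‖s‖ < r := mem_ball_zero_iff.1 hs
    have hsn' : ‖s'‖ < r := mem_ball_zero_iff.1 hs'
    have h1 : ‖v s - v s'‖ ≤ 4 * C / ρ * ‖s - s'‖ :=
      lip_of_bound hρ hC0.le hG.vd hG.vb s' s (by linarith) (by linarith)
    have h3 : ‖t s - t s'‖ ≤ (2 * Λ / ‖D‖ + 1) * ‖s - s'‖ := by
      have h4 : (2 * Λ / ‖D‖ + 1) * ‖s - s'‖ = ((2 * Λ + ‖D‖) * ‖s - s'‖) / ‖D‖ := by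
        field_simp
      rw [h4, le_div_iff₀ hDp, mul_comm]
      exact htL s hs s' hs'
    have h4 : ‖κ * s i - κ * s' i‖ ≤ ‖κ‖ * ‖s - s'‖ := by
      rw [← mul_sub, norm_mul]
      exact mul_le_mul_of_nonneg_left (norm_le_pi_norm (s - s') i) (norm_nonneg _)
    have h5 : (v s + t s - κ * s i) - (v s' + t s' - κ * s' i) =
        (v s - v s') + (t s - t s') - (κ * s i - κ * s' i) := by ring
    show ‖(v s + t s - κ * s i) - (v s' + t s' - κ * s' i)‖ ≤ _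
    rw [h5]
    have h6 := norm_sub_le ((v s - v s') + (t s - t s')) (κ * s i - κ * s' i)
    have h7 := norm_add_le (v s - v s') (t s - t s')
    have h8 : 2 * Λ / ‖D‖ ≤ K₀ * Λ / ‖D‖ :=
      div_le_div_of_nonneg_right (mul_le_mul_of_nonneg_right (by linarith) hΛ) hDp.le
    have h9 : (4 * C / ρ + ‖κ‖ + 1 + 2 * Λ / ‖D‖) * ‖s - s'‖ ≤
        (K₀ + K₀ * Λ / ‖D‖) * ‖s - s'‖ :=
      mul_le_mul_of_nonneg_right (by rw [hK₀] at h8 ⊢; linarith) (norm_nonneg _)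
    linarith
  · show ‖u 0 - z N‖ ≤ K₀ * ‖D‖ * ‖v 0 + t 0 - κ * (0 : Fin k → ℂ) i - z 0‖
    rw [hw0, ← heq0]
    have h1 := norm_add_le (D * t 0) (E (Jn 0 (t 0)))
    rw [norm_mul] at h1
    have h2 : 0 ≤ ‖D‖ * ‖t 0‖ := by positivity
    have h3 : 16 * (‖D‖ * ‖t 0‖) ≤ K₀ * (‖D‖ * ‖t 0‖) := mul_le_mul_of_nonneg_right hK16 h2
    linarith
  · show ‖D‖ * ‖v 0 + t 0 - κ * (0 : Fin k → ℂ) i - z 0‖ ≤ K₀ * ‖u 0 - z N‖
    rw [hw0]
    have h1 : D * t 0 = (u 0 - z N) - E (Jn 0 (t 0)) := by linear_combination heq0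
    have h2 := congrArg norm h1
    rw [norm_mul] at h2
    have h3 := norm_sub_le (u 0 - z N) (E (Jn 0 (t 0)))
    have h4 : 16 * ‖u 0 - z N‖ ≤ K₀ * ‖u 0 - z N‖ :=
      mul_le_mul_of_nonneg_right hK16 (norm_nonneg _)
    have h5 := norm_nonneg (u 0 - z N)
    linarith
  · intro s hs
    have hYs : ∀ n, YY f (fun s => v s + t s - κ * s i) n s =
        YY (fh f) (vh v κ i) n (Jn s (t s)) := fun n => YY_eq rfl n
    have hσ : Jn s (t s) ∈ ball (0 : Fin (k + 1) → ℂ) δ := by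
      rw [mem_ball_zero_iff]
      have := hJ s hs _ (ht s hs)
      linarith
    refine ⟨?_, fun n hn => ?_⟩
    · rw [hYs, ← hY]
      have h1 := heq s hs
      rw [hE, Jn_last] at h1
      linear_combination h1
    · rw [hYs]
      obtain ⟨h1, h2⟩ := (hb _ hσ).1 n hn
      refine ⟨h1, ?_⟩
      have h3 : ‖s‖ ≤ ‖Jn s (t s)‖ := by
        have := norm_Pr_le (Jn s (t s))
        rwa [Pr_Jn] at this
      have h4 : 1 / (2 * C) * x n = x n / (2 * C) := by ring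
      rw [h4] at h2
      linarith

end Pool.Agent.H62.BT207
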